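import Pool.Agent.Y173.QM.Kod
import Pool.Agent.Y173.QA.MainU
import Pool.Agent.W619.Y.Eqv

/-! Kodaira dimension and numerical dimension of quotients of varieties with many relative closed
1-forms over a base. -/

set_option autoImplicit false
set_option linter.overlappingInstances false
set_option linter.unusedSectionVars false

open FF IntermediateField Pool.Agent.W619.PQ Pool.Agent.W619.PL Pool.Agent.W619.TW
  Pool.Agent.W603.LV Pool.Agent.W619.Y Pool.Agent.Y173.QA

namespace Pool.Agent.Y173.QM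

theorem mainM {k L : Type} [Field k] [CharZero k] [IsAlgClosed k] [Field L] [Algebra k L]
    [Algebra.EssFiniteType k L] {m f : ℕ} (hn : Algebra.trdeg k L = (m + f : ℕ))
    (M : IntermediateField k L) [Algebra.EssFiniteType k M] (hM : Algebra.trdeg k M = m)
    (G : Subgroup (L ≃ₐ[k] L)) [Finite G] (V : Submodule k (Derivation k L L →ₗ[L] L))
    (hreg : ∀ θ ∈ V, IsRegForm (m + f) θ) (hcl : ∀ θ ∈ V, IsClosedForm θ)
    (hstab : ∀ g ∈ G, ∀ θ ∈ V, ∃ θ' ∈ V, IsImage g θ θ')
    (hgen : ∃ θ : Fin f → Derivation k L L →ₗ[L] L, (∀ i, θ i ∈ V) ∧ IndepOver (m := m) M θ)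
    (hRT : ReidTaiOver m f G M V) :
    ∃ b : ℕ, b + Module.finrank k (constFieldsOver M V) = f ∧
      (∀ h, KodTr k M m h → KodTr k (fixedField G) (m + f) (h + b)) ∧
      (0 < m + f → IsRegularOnModel (constFieldsOver M V) →
        NumLe k (fixedField G) (m + f) (fun _ => False) (m + b)) := by
  classical
  obtain ⟨θ, hθ, hind⟩ := hgen
  obtain ⟨z0, D0, hz0, hD0⟩ := (indep_iff M θ).1 hind
  have halgM : Algebra.IsAlgebraic (⊤ : IntermediateField k M) M :=
    ⟨fun x => isAlgebraic_algebraMap (⟨x, trivial⟩ : (⊤ : IntermediateField k M))⟩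
  obtain ⟨y, hy⟩ : ∃ y : Fin m → M, IsTranscendenceBasis k y := exists_tb hM
  obtain ⟨E, hE⟩ := exists_duals hy
  -- change of the base coordinates
  have hD0' : eta (fam (fun l => (y l : L)) θ) D0 ≠ 0 := by
    intro h0
    apply hD0
    have h1 := eta_base (z := z0) (z' := fun l => (y l : L))
      (Matrix.of fun l c => ((E c ⟨z0 l, hz0 l⟩ : M) : L))
      (fun D l => Pool.Agent.W308.PG.YLOC.expand y E hy hE D ⟨z0 l, hz0 l⟩) θ D0
    rw [h1, h0, mul_zero]
  have hzi : AlgebraicIndependent k (fun l => (y l : L)) :=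
    (AlgHom.algebraicIndependent_iff M.val Subtype.val_injective).2 hy.1
  have hMz : ∀ x ∈ M, ∀ D : Derivation k L L, (∀ l, D ((y l : M) : L) = 0) → D x = 0 := by
    intro x hx D hD
    have h1 := Pool.Agent.W308.PG.YLOC.expand y E hy hE D ⟨x, hx⟩
    change D x = _ at h1
    rw [h1]
    refine Finset.sum_eq_zero fun c _ => ?_
    have h2 : D (algebraMap M L (y c)) = 0 := hD c
    rw [h2, mul_zero]
  obtain ⟨b, r, t, P, U, hbr, ht, hP1, hP2, htS, hU, hUz, hUt, hUspan, hUlin, hr⟩ :=
    structure_rel hn (fun y hy => fin_adj y hy) M V hreg hcl (fun l => (y l).2) hzi hMz hθ hD0'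
  refine ⟨b, by rw [hr, hbr], fun h hk => kodM G M V hn hM (fun y hy => fin_over y hy) hreg hstab
    hRT hy hθ hP1 ht htS hk, ?_⟩
  rintro hpos ⟨N, zc, hz0, htop, hUB⟩
  refine (down (m + f) hn G).2.2 (m + b) ?_
  subst hbr
  rw [← Nat.add_assoc] at hn hpos ⊢
  have htt : AlgebraicIndependent k (Fin.append (fun l => (y l : L)) t) := indep_append ht
  refine numLe_U hpos hn (fun y hy => fin_adj y hy) htt hz0 htop ?_
      (fun l i j => hUB (U l) (hU l) i j) ?_
  · intro i j
    refine Fin.addCases (fun l => ?_) (fun l => ?_) j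
    · rw [Fin.append_left]
      exact hUz i l
    · rw [Fin.append_right]
      exact hUt i l
  · intro D hD
    refine hUspan D (fun l => ?_) (fun l => ?_)
    · have h1 := hD (Fin.castAdd b l)
      rwa [Fin.append_left] at h1
    · have h1 := hD (Fin.natAdd m l)
      rwa [Fin.append_right] at h1

end Pool.Agent.Y173.QM
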