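import Pool.Agent.Y173.QA.DefsU

/-! Closed 1-forms which generate the cotangent bundle relative to a rational map, and the relative
condition of Reid-Tai type. -/

set_option autoImplicit false
set_option linter.overlappingInstances false
set_option linter.unusedSectionVars false

universe u v

open FF Pool.Agent.W619.PQ Pool.Agent.Y173.QA

namespace Pool.Agent.Y173.QM

section

variable {k : Type v} {L : Type u} [Field k] [Field L] [Algebra k L]

/-- The `1`-forms `θ 1, ..., θ f` are independent relative to the subfield `M`, of transcendence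
degree `m`: there are functions `z 1, ..., z m` in `M` such that the exterior product of
`dz 1, ..., dz m, θ 1, ..., θ f` is not zero. -/
def IndepOver (M : IntermediateField k L) {m f : ℕ} (θ : Fin f → Derivation k L L →ₗ[L] L) :
    Prop :=
  ∃ (z : Fin m → L) (D : Fin (m + f) → Derivation k L L), (∀ l, z l ∈ M) ∧
    (Matrix.of fun i j => Fin.append (fun l => D j (z l)) (fun l => θ l (D j)) i).det ≠ 0

/-- `c` is the order along the divisor `w` of a rational function on the base (a nonzero element of
`M`), and it is positive unless `w` dominates the base (all elements of `M` have order zero). -/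
def BaseOrd (M : IntermediateField k L) (w : Place k L) (c : ℕ) : Prop :=
  (∃ x ∈ M, x ≠ 0 ∧ w.ord x = c) ∧ (c = 0 → ∀ x ∈ M, x ≠ 0 → w.ord x = 0)

/-- The relative condition of Reid-Tai type on the space `V` of `1`-forms: if `g ≠ 1` in `G`, of
order `d`, fixes a prime divisor `w` pointwise and acts on the elements `θ 1, ..., θ f` of `V`,
which are independent relative to `M`, by `ζ ^ a 1, ..., ζ ^ a f` with `0 ≤ a i < d`, where `ζ` is a
primitive `d`-th root of unity, then `c + ∑ a i ≥ d`, where `c = 0` if `w` dominates the base, and
otherwise `c` is any positive order along `w` of a rational function on the base. -/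
def ReidTaiOver (m f : ℕ) (G : Subgroup (L ≃ₐ[k] L)) (M : IntermediateField k L)
    (V : Submodule k (Derivation k L L →ₗ[L] L)) : Prop :=
  ∀ g ∈ G, g ≠ 1 → ∀ w : Place k L, IsDivisorial w (m + f) →
    (∀ z, w.Reg z → g z - z = 0 ∨ 1 ≤ w.ord (g z - z)) →
    ∀ ζ : k, IsPrimitiveRoot ζ (orderOf g) →
    ∀ (θ : Fin f → Derivation k L L →ₗ[L] L) (a : Fin f → ℕ),
      (∀ i, θ i ∈ V ∧ a i < orderOf g ∧ IsImage g (θ i) (ζ ^ a i • θ i)) →
      IndepOver (m := m) M θ → ∀ c : ℕ, BaseOrd M w c → orderOf g ≤ c + ∑ i, a i

/-- The space of all rational vector fields along the fibres of the rational map given by `M` on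
which all `1`-forms in `V` are constant. -/
def constFieldsOver (M : IntermediateField k L) (V : Submodule k (Derivation k L L →ₗ[L] L)) :
    Submodule k (Derivation k L L) where
  carrier := {D | (∀ x ∈ M, D x = 0) ∧ D ∈ constFields V}
  zero_mem' := ⟨fun _ _ => rfl, (constFields V).zero_mem⟩
  add_mem' := by
    intro D D' h h'
    refine ⟨fun x hx => ?_, (constFields V).add_mem h.2 h'.2⟩
    rw [Derivation.add_apply, h.1 x hx, h'.1 x hx, add_zero]
  smul_mem' := by
    intro a D h
    refine ⟨fun x hx => ?_, (constFields V).smul_mem a h.2⟩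
    rw [Derivation.smul_apply, h.1 x hx, smul_zero]

end

end Pool.Agent.Y173.QM
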