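import Mathlib

/-! Algebraic independence over an intermediate field. -/

set_option autoImplicit false
set_option linter.overlappingInstances false
set_option linter.unusedSectionVars false

open IntermediateField

namespace Pool.Agent.Y173.QM

section

variable {k L : Type*} [Field k] [Field L] [Algebra k L]

theorem indep_pow {ι : Type*} {t : ι → L} (ht : AlgebraicIndependent k t) {m : ℕ} (hm : 1 ≤ m) :
    AlgebraicIndependent k (fun i => t i ^ m) := by
  rw [algebraicIndependent_iff]
  intro p hp
  have h1 : MvPolynomial.aeval t (MvPolynomial.expand m p) = 0 := by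
    rw [← hp]
    have h2 : (MvPolynomial.aeval t).comp (MvPolynomial.expand m (R := k) (σ := ι)) =
        MvPolynomial.aeval (fun i => t i ^ m) := by
      apply MvPolynomial.algHom_ext
      intro i
      simp
    rw [← h2]
    rfl
  have h2 := (algebraicIndependent_iff.1 ht) _ h1
  exact (MvPolynomial.expand_eq_zero (by omega)).1 h2

/-- independence over the field `M` from independence of a transcendence basis of `M` together with
`t` -/
theorem indep_over {ι κ : Type*} (M : IntermediateField k L) {y : ι → M}
    (hy : IsTranscendenceBasis k y) {t : κ → L}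
    (h : AlgebraicIndependent k (Sum.elim (fun l => (y l : L)) t)) :
    AlgebraicIndependent M t := by
  have h1 : AlgebraicIndependent k (Sum.elim t (fun l => (y l : L))) := by
    have h2 := h.comp (Sum.swap : κ ⊕ ι → ι ⊕ κ) Sum.swap_leftInverse.injective
    have h3 : Sum.elim (fun l => (y l : L)) t ∘ (Sum.swap : κ ⊕ ι → ι ⊕ κ) =
        Sum.elim t (fun l => (y l : L)) := by
      funext i
      rcases i with i | i <;> rfl
    rwa [h3] at h2
  have h2 := (AlgebraicIndependent.sumElim_iff.1 h1).2
  have hmap : ∀ x : Algebra.adjoin k (Set.range y), M.val (x : M) ∈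
      Algebra.adjoin k (Set.range fun l => (y l : L)) := by
    intro x
    have h3 : (Algebra.adjoin k (Set.range y)).map M.val =
        Algebra.adjoin k (Set.range fun l => (y l : L)) := by
      rw [AlgHom.map_adjoin, ← Set.range_comp]
      rfl
    rw [← h3]
    exact ⟨x, x.2, rfl⟩
  let φ : Algebra.adjoin k (Set.range y) →+* Algebra.adjoin k (Set.range fun l => (y l : L)) :=
    ((M.val.comp (Algebra.adjoin k (Set.range y)).val).codRestrict _ hmap).toRingHom
  let iA : Algebra (Algebra.adjoin k (Set.range y))
    (Algebra.adjoin k (Set.range fun l => (y l : L))) := φ.toAlgebra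
  have hT : IsScalarTower (Algebra.adjoin k (Set.range y))
    (Algebra.adjoin k (Set.range fun l => (y l : L))) L := .of_algebraMap_eq fun x => rfl
  have hinj : Function.Injective (algebraMap (Algebra.adjoin k (Set.range y))
    (Algebra.adjoin k (Set.range fun l => (y l : L)))) := by
    intro a b hab
    have h3 := congrArg (Subtype.val : _ → L) hab
    exact Subtype.ext (Subtype.ext h3)
  have h3 : AlgebraicIndependent (Algebra.adjoin k (Set.range y)) t := h2.restrictScalars hinj
  have halg : Algebra.IsAlgebraic (Algebra.adjoin k (Set.range y)) M := hy.isAlgebraic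
  exact h3.extendScalars M

theorem indep_join {ι κ : Type*} (M : IntermediateField k L) {s : ι → M}
    (hs : AlgebraicIndependent k s) {t : κ → L} (ht : AlgebraicIndependent M t) :
    AlgebraicIndependent k (Sum.elim (fun l => (s l : L)) t) := by
  have h1 : AlgebraicIndependent k (Sum.elim t (algebraMap M L ∘ s)) := hs.sumElim_comp ht
  have h2 := h1.comp (Sum.swap : ι ⊕ κ → κ ⊕ ι) Sum.swap_leftInverse.injective
  have h3 : Sum.elim t (algebraMap M L ∘ s) ∘ (Sum.swap : ι ⊕ κ → κ ⊕ ι) =
      Sum.elim (fun l => (s l : L)) t := by
    funext i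
    rcases i with i | i <;> rfl
  rwa [h3] at h2

theorem indep_append {h b : ℕ} {s : Fin h → L} {t : Fin b → L}
    (hst : AlgebraicIndependent k (Sum.elim s t)) : AlgebraicIndependent k (Fin.append s t) := by
  have h1 := hst.comp (finSumFinEquiv (m := h) (n := b)).symm (Equiv.injective _)
  have h2 : Sum.elim s t ∘ (finSumFinEquiv (m := h) (n := b)).symm = Fin.append s t := by
    funext i
    refine Fin.addCases (fun j => ?_) (fun j => ?_) i
    · simp
    · simp
  rwa [h2] at h1

end

end Pool.Agent.Y173.QM
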