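import Pool.Agent.Y173.QM.Pick

/-! The local estimates for relative forms. -/

set_option autoImplicit false
set_option linter.overlappingInstances false
set_option linter.unusedSectionVars false

universe u v

open FF IntermediateField Pool.Agent.W619.PQ Pool.Agent.W619.PL Pool.Agent.W619.TW
  Pool.Agent.W603.LV Pool.Agent.W619.Y Pool.Agent.W308.PG.YLOC Pool.Agent.Y173.QA

namespace Pool.Agent.Y173.QM

section

variable {k : Type v} {L : Type u} [Field k] [CharZero k] [Field L] [Algebra k L]

/-- The `m0`-form `a (dy) ^ m0` on the base is `a' (dz) ^ m0` with `a'` and the coordinates `z`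
regular at `w`, and the orders of the coordinates are at least `bl`, with sum `c`. -/
def BGood (M : IntermediateField k L) (d m0 : ℕ) (w : Place k L) (y : Fin d → L) (a : L) : Prop :=
  ∃ (Z : Matrix (Fin d) (Fin d) L) (z : Fin d → L) (c : ℕ) (bl : Fin d → ℤ), (∀ l, z l ∈ M) ∧
    (∀ l, w.Reg (z l)) ∧ (∀ (D : Derivation k L L) l, D (y l) = ∑ c, Z l c * D (z c)) ∧
    Ge w 0 (a * Z.det ^ m0) ∧ BaseOrd M w c ∧ (∀ l, Ge w (bl l) (z l)) ∧ ∑ l, bl l = c

/-- regular pluricanonical forms on the base -/
theorem base_loc (M : IntermediateField k L) (d n m : ℕ) (hd : Algebra.trdeg k M = d)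
    (hn : Algebra.trdeg k L = n)
    (hfin : ∀ y : Fin d → M, IsTranscendenceBasis k y →
      FiniteDimensional (IntermediateField.adjoin k (Set.range y)) M)
    {η : (Fin d → Derivation k M M) → M} (hη : IsPluriForm k M d m η)
    (hreg : ∀ u : Place k M, IsDivisorial u d → RegularAt u d η)
    {y : Fin d → M} {E : Fin d → Derivation k M M} (hy : IsTranscendenceBasis k y)
    (hE : ∀ i j, E i (y j) = if i = j then 1 else 0)
    {w : Place k L} (hw : IsDivisorial w n) :
    BGood M d m w (fun l => (y l : L)) ((η E : M) : L) := by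
  by_cases htriv : ∃ f : M, w.ord (algebraMap M L f) ≠ 0
  · obtain ⟨e, u, hu⟩ := exists_over (K := M) w htriv
    have hdiv : IsDivisorial u d := pDIVR k M L d n u w e hd hn hu hw
    obtain ⟨y', E', i0, hy', hE', hord, hyr, hpres⟩ := pFRAME k M d hd hfin u hdiv
    have hregL : ∀ f : M, u.Reg f → w.Reg (algebraMap M L f) := by
      intro f hf
      rcases hf with hf | hf
      · left; rw [hf, map_zero]
      · right
        rw [hu.2]
        exact mul_nonneg (by positivity) hf
    have hy0 : y' i0 ≠ 0 := by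
      intro h0
      rw [h0, u.ord_zero] at hord
      norm_num at hord
    have hord' : w.ord ((y' i0 : M) : L) = e := by
      have h1 := hu.2 (y' i0)
      rw [hord, mul_one] at h1
      exact h1
    refine ⟨Matrix.of fun l c => algebraMap M L (E' c (y l)), fun c => algebraMap M L (y' c),
      e, fun l => if l = i0 then (e : ℤ) else 0, fun l => (y' l).2,
      fun c => hregL _ (hyr c), ?_, ?_, ?_, ?_, ?_⟩
    · intro D l
      exact expand y' E' hy' hE' D (y l)
    · set A : Matrix (Fin d) (Fin d) M := Matrix.of fun c l => E' c (y l) with hA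
      have h1 : η E' = A.det ^ m * η E := by
        have h2 := hη A E
        have h3 : (fun i => ∑ j, A i j • E j) = E' := by
          funext i
          exact (expandK y E hy hE (E' i)).symm
        rw [h3] at h2
        exact h2
      have h4 : (Matrix.of fun l c => algebraMap M L (E' c (y l))).det = algebraMap M L A.det := by
        rw [RingHom.map_det, ← Matrix.det_transpose]
        rfl
      rw [h4]
      have h5 : ((η E : M) : L) * algebraMap M L A.det ^ m = algebraMap M L (η E') := by
        rw [h1, map_mul, map_pow, mul_comm]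
        rfl
      rw [h5]
      exact hregL _ (hreg u hdiv E' hpres)
    · refine ⟨⟨(y' i0 : L), (y' i0).2, fun h => hy0 (Subtype.ext h), hord'⟩, fun h0 => ?_⟩
      have h1 := hu.1
      omega
    · intro l
      by_cases hl : l = i0
      · simp only [hl]
        exact Or.inr hord'.ge
      · simp only [if_neg hl]
        exact hregL _ (hyr l)
    · simp only []
      rw [Finset.sum_ite_eq' Finset.univ i0 (fun _ => (e : ℤ)), if_pos (Finset.mem_univ _)]
  · push Not at htriv
    refine ⟨1, fun l => (y l : L), 0, fun _ => 0, fun l => (y l).2,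
      fun c => Or.inr (htriv (y c)).ge, ?_, ?_, ?_, ?_, ?_⟩
    · intro D l
      rw [Finset.sum_eq_single l]
      · rw [Matrix.one_apply_eq, one_mul]
      · intro c _ hc
        rw [Matrix.one_apply_ne (Ne.symm hc), zero_mul]
      · intro h
        exact absurd (Finset.mem_univ l) h
    · rw [Matrix.det_one, one_pow, mul_one]
      exact Or.inr (htriv (η E)).ge
    · refine ⟨⟨1, M.one_mem, one_ne_zero, ?_⟩, fun _ x hx _ => htriv ⟨x, hx⟩⟩
      have h1 := w.ord_const (c := 1) one_ne_zero
      rw [map_one] at h1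
      exact_mod_cast h1
    · intro l
      exact Or.inr (htriv (y l)).ge
    · simp

/-- **The local estimate at a ramified divisor.** -/
theorem rt_rel {m f : ℕ} {G : Subgroup (L ≃ₐ[k] L)} {M : IntermediateField k L}
    {V : Submodule k (Derivation k L L →ₗ[L] L)}
    (hreg : ∀ θ ∈ V, IsRegForm (m + f) θ)
    (hstab : ∀ g ∈ G, ∀ θ ∈ V, ∃ θ' ∈ V, IsImage g θ θ')
    (hRT : ReidTaiOver m f G M V) (w : Place k L) (hw : IsDivisorial w (m + f))
    (h : L ≃ₐ[k] L) (hG : h ∈ G)
    {e : ℕ} (he : orderOf h = e) (he2 : 2 ≤ e) {ζ : k} (hζ : IsPrimitiveRoot ζ e)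
    (hrot : ∀ z : L, z ≠ 0 → Ge w (w.ord z + 1) (h z - algebraMap k L (ζ ^ (w.ord z)) * z))
    {z : Fin m → L} (hzM : ∀ l, z l ∈ M) {c : ℕ} (hc : BaseOrd M w c) {bl : Fin m → ℤ}
    (hbl : ∀ l, Ge w (bl l) (z l)) (hblc : ∑ l, bl l = c)
    (θ : Fin f → Derivation k L L →ₗ[L] L) (hθ : ∀ i, θ i ∈ V)
    (E : Fin (m + f) → Derivation k L L) (hE : ∀ j z, w.Reg (E j z / z))
    (hEh : ∀ j z, h (E j z) = E j (h z)) :
    Ge w e (eta (fam z θ) E) := by
  classical
  have hact : ∀ θ ∈ V, act h θ ∈ V := by
    intro θ hθ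
    obtain ⟨θ', h1, h2⟩ := hstab h hG θ hθ
    rw [isImage_iff] at h2
    rwa [← h2]
  have hT : ∀ x, ((act h) ^ e) x = x := by
    intro x
    rw [act_pow, ← he, pow_orderOf_eq_one]
    have := act_pow (1 : L ≃ₐ[k] L) 0 x
    rw [pow_zero, pow_zero, Module.End.one_apply] at this
    exact this.symm
  have hfix : ∀ z, w.Reg z → h z - z = 0 ∨ 1 ≤ w.ord (h z - z) := by
    intro z hz
    by_cases hz0 : z = 0
    · left; rw [hz0, map_zero, sub_zero]
    have hz' : 0 ≤ w.ord z := hz.resolve_left hz0
    have h1 : Ge w 1 (h z - algebraMap k L (ζ ^ (w.ord z)) * z) :=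
      (hrot z hz0).mono (by omega)
    have h2 : Ge w 1 (algebraMap k L (ζ ^ (w.ord z)) * z - z) := by
      rcases hz'.eq_or_lt with h3 | h3
      · rw [← h3, zpow_zero, map_one, one_mul, sub_self]
        exact Ge.zero
      · have h4 : Ge w 1 z := Or.inr (by omega)
        have h5 := (Ge.const (P := w) (ζ ^ (w.ord z))).mul h4
        rw [zero_add] at h5
        exact h5.sub h4
    have h3 := h1.add h2
    rw [sub_add_sub_cancel] at h3
    exact h3
  have hPres : ∀ j, ∀ f, w.Reg f → w.Reg (E j f) := by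
    intro j f hf
    by_cases hf0 : f = 0
    · rw [hf0, map_zero]; exact w.reg_zero
    · have h1 := w.reg_mul (hE j f) hf
      rwa [div_mul_cancel₀ _ hf0] at h1
  choose cc hcV hcT hcs using fun i => eig_decomp (by omega : 0 < e) hζ (act h) hT V hact (θ i) (hθ i)
  have he0 : 0 < e := by omega
  -- the decomposition of all the forms
  let z0 : Fin e := ⟨0, he0⟩
  let C : Fin (m + f) → Fin e → (Derivation k L L →ₗ[L] L) := fun i a =>
    Fin.addCases (motive := fun _ => Derivation k L L →ₗ[L] L)
      (fun l => if a = z0 then dform (z l) else 0) (fun l => cc l a) i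
  have hCl : ∀ (l : Fin m) a, C (Fin.castAdd f l) a = if a = z0 then dform (z l) else 0 := by
    intro l a
    simp only [C, Fin.addCases_left]
  have hCr : ∀ (l : Fin f) a, C (Fin.natAdd m l) a = cc l a := by
    intro l a
    simp only [C, Fin.addCases_right]
  have hCs : ∀ i, ∑ a, C i a = fam z θ i := by
    intro i
    refine Fin.addCases (fun l => ?_) (fun l => ?_) i
    · simp only [hCl]
      rw [Finset.sum_ite_eq' Finset.univ z0 (fun _ => dform (z l)), if_pos (Finset.mem_univ _),
        fam_left]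
    · simp only [hCr]
      rw [hcs, fam_right]
  have hM : (Matrix.of fun i j => fam z θ i (E j)) = Matrix.of fun i j => (∑ a, C i a (E j)) := by
    ext i j
    rw [Matrix.of_apply, Matrix.of_apply]
    conv_lhs => rw [← hCs i]
    rw [LinearMap.sum_apply]
  have hdet : (Matrix.of fun i j => (∑ a, C i a (E j))).det =
      ∑ r : Fin (m + f) → Fin e, (Matrix.of fun i j => C i (r i) (E j)).det := by
    have h1 := (Matrix.detRowAlternating (R := L) (n := Fin (m + f))).toMultilinearMap.map_sum
      (fun (i : Fin (m + f)) (a : Fin e) => (fun j => C i a (E j)))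
    have h2 : (fun i => ∑ a : Fin e, (fun j => C i a (E j))) =
        Matrix.of fun i j => (∑ a, C i a (E j)) := by
      ext i j
      rw [Finset.sum_apply, Matrix.of_apply]
    rw [h2] at h1
    exact h1
  unfold eta
  rw [hM, hdet]
  refine Ge.sum _ _ fun r _ => ?_
  by_cases h0 : (Matrix.of fun i j => C i (r i) (E j)).det = 0
  · rw [h0]; exact Ge.zero
  have hr0 : ∀ l : Fin m, r (Fin.castAdd f l) = z0 := by
    intro l
    by_contra hne
    apply h0
    apply Matrix.det_eq_zero_of_row_eq_zero (Fin.castAdd f l)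
    intro j
    rw [Matrix.of_apply, hCl, if_neg hne]
    rfl
  have hfam : (fun i => C i (r i)) = fam z (fun i => cc i (r (Fin.natAdd m i))) := by
    funext i
    refine Fin.addCases (fun l => ?_) (fun l => ?_) i
    · rw [hCl, hr0, if_pos rfl, fam_left]
    · rw [hCr, fam_right]
  have hne : eta (fam z (fun i => cc i (r (Fin.natAdd m i)))) E ≠ 0 := by
    rw [← hfam]
    exact h0
  have h1 := hRT h hG (fun h1 => by rw [h1, orderOf_one] at he; omega) w hw hfix ζ (he ▸ hζ)
    (fun i => cc i (r (Fin.natAdd m i))) (fun i => (r (Fin.natAdd m i) : ℕ))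
    (fun i => ⟨hcV i _, by rw [he]; exact (r _).2, ?_⟩) ((indep_iff M _).2 ⟨z, E, hzM, hne⟩) c hc
  · let bd : Fin (m + f) → ℤ := Fin.append bl (fun i => ((r (Fin.natAdd m i) : ℕ) : ℤ))
    have hsum : ∑ i, bd i = c + ∑ i, ((r (Fin.natAdd m i) : ℕ) : ℤ) := by
      rw [Fin.sum_univ_add]
      simp only [bd, Fin.append_left, Fin.append_right]
      rw [hblc]
    have h2 : Ge w (∑ i, bd i) (Matrix.of fun i j => C i (r i) (E j)).det := by
      refine ge_det_row w _ _ fun i j => ?_
      rw [Matrix.of_apply]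
      refine Fin.addCases (fun l => ?_) (fun l => ?_) i
      · rw [hCl, hr0, if_pos rfl, dform_apply]
        simp only [bd, Fin.append_left]
        by_cases hz0 : z l = 0
        · rw [hz0, map_zero]; exact Ge.zero
        have h3 : Ge w 0 (E j (z l) / z l) := hE j (z l)
        have h4 := h3.mul (hbl l)
        rwa [zero_add, div_mul_cancel₀ _ hz0] at h4
      · rw [hCr]
        simp only [bd, Fin.append_right]
        refine eig_ord hζ w h hrot (r _).2 (hreg _ (hcV l _) w hw (E j) (hPres j)) ?_
        have h3 := act_comm h (cc l (r (Fin.natAdd m l))) (E j) (hEh j)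
        rw [← h3, hcT]
        rfl
    refine h2.mono ?_
    rw [hsum]
    rw [he] at h1
    exact_mod_cast h1
  · rw [isImage_iff, hcT]

/-- **The estimate for the sections.** -/
theorem est_rel {m f m0 : ℕ} (G : Subgroup (L ≃ₐ[k] L)) [Finite G] {M : IntermediateField k L}
    {V : Submodule k (Derivation k L L →ₗ[L] L)}
    (htr : Algebra.trdeg k L = (m + f : ℕ))
    (hreg : ∀ θ ∈ V, IsRegForm (m + f) θ)
    (hstab : ∀ g ∈ G, ∀ θ ∈ V, ∃ θ' ∈ V, IsImage g θ θ')
    (hRT : ReidTaiOver m f G M V)
    {v : Place k (fixedField G)} {w : Place k L} {e : ℕ} (hwv : Over w v e)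
    (hw : IsDivisorial w (m + f)) {h : G} {ζ : k} (hord : orderOf (h : L ≃ₐ[k] L) = e)
    (hζ : IsPrimitiveRoot ζ e) (hrot : Rot w (h : L ≃ₐ[k] L) ζ)
    {y : Fin m → L} {a : L} (hgood : BGood M m m0 w y a)
    {θ : Fin f → Derivation k L L →ₗ[L] L} (hθ : ∀ i, θ i ∈ V)
    {D : Fin (m + f) → Derivation k (fixedField G) (fixedField G)}
    {D' : Fin (m + f) → Derivation k L L} (hD : ∀ j, Pres v (D j))
    (hDD : ∀ j (f : fixedField G), D' j (f : L) = (D j f : L)) :
    Ge w 0 (a * eta (fam y θ) D' ^ m0) := by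
  obtain ⟨Z, z, c, bl, hzM, hzr, hyz, hdet, hc, hbl, hblc⟩ := hgood
  have hpl := pluri_smul (pluri_pow (eta_pluri (fam y θ)) m0) a
  rw [one_mul] at hpl
  have hval : ∀ E' : Fin (m + f) → Derivation k L L, a * eta (fam y θ) E' ^ m0 =
      (a * Z.det ^ m0) * eta (fam z θ) E' ^ m0 := by
    intro E'
    rw [eta_base Z hyz, mul_pow, mul_assoc]
  refine core G htr hwv h hpl 0 ?_ ?_ D D' hD hDD
  · intro he2 E' hlog hcomm
    rw [hval]
    have h2 : Ge w e (eta (fam z θ) E') :=
      rt_rel hreg hstab hRT w hw h h.2 hord he2 hζ hrot hzM hc hbl hblc θ hθ E' hlog hcomm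
    have h3 := hdet.mul (h2.pow m0)
    exact h3
  · intro _ E' hE'
    rw [hval]
    have h2 : Ge w 0 (eta (fam z θ) E') := by
      refine Pool.Agent.W619.PQ.ge_det w _ fun i j => ?_
      rw [Matrix.of_apply]
      refine Fin.addCases (fun l => ?_) (fun l => ?_) i
      · rw [fam_left, dform_apply]
        exact hE' j _ (hzr l)
      · rw [fam_right]
        exact hreg _ (hθ l) w hw (E' j) (hE' j)
    have h3 := hdet.mul (h2.pow m0)
    simpa using h3

end

end Pool.Agent.Y173.QM
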