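import Pool.Agent.Y173.QM.Str
import Pool.Agent.Y173.QM.Ind
import Pool.Agent.Y173.QM.Loc
import Pool.Agent.Y173.QA.KodB

/-! Lower bound for the Kodaira dimension of the quotient. -/

set_option autoImplicit false
set_option linter.overlappingInstances false
set_option linter.unusedSectionVars false

open FF IntermediateField Pool.Agent.W619.PQ Pool.Agent.W619.PL Pool.Agent.W619.TW
  Pool.Agent.W603.LV Pool.Agent.W619.Y Pool.Agent.Y173.QA

namespace Pool.Agent.Y173.QM

variable {k : Type} [Field k] [CharZero k] {L : Type} [Field L] [Algebra k L]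

theorem fam_update {m f : ℕ} (z : Fin m → L) (θ : Fin f → Derivation k L L →ₗ[L] L) (i : Fin f)
    (τ : Derivation k L L →ₗ[L] L) :
    fam z (Function.update θ i τ) = Function.update (fam z θ) (Fin.natAdd m i) τ := by
  classical
  funext l
  refine Fin.addCases (fun l => ?_) (fun l => ?_) l
  · rw [fam_left, Function.update_of_ne (Ne.symm (natAdd_ne_castAdd i l)), fam_left]
  · rw [fam_right]
    by_cases hl : l = i
    · subst hl
      rw [Function.update_self, Function.update_self]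
    · rw [Function.update_of_ne hl,
        Function.update_of_ne (fun h => hl (Fin.natAdd_injective f m h)), fam_right]

theorem kodM [IsAlgClosed k] (G : Subgroup (L ≃ₐ[k] L)) [Finite G] (M : IntermediateField k L)
    (V : Submodule k (Derivation k L L →ₗ[L] L)) {m f : ℕ}
    (htr : Algebra.trdeg k L = (m + f : ℕ)) (hMd : Algebra.trdeg k M = m)
    (hfinM : ∀ y : Fin m → M, IsTranscendenceBasis k y →
      FiniteDimensional (IntermediateField.adjoin k (Set.range y)) M)
    (hreg : ∀ θ ∈ V, IsRegForm (m + f) θ)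
    (hstab : ∀ g ∈ G, ∀ θ ∈ V, ∃ θ' ∈ V, IsImage g θ θ')
    (hRT : ReidTaiOver m f G M V) {y : Fin m → M} (hy : IsTranscendenceBasis k y)
    {θ : Fin f → Derivation k L L →ₗ[L] L} (hθ : ∀ i, θ i ∈ V)
    {P : Fin (m + f) → Derivation k L L}
    (hP1 : ∀ i j, fam (fun l => (y l : L)) θ i (P j) = if i = j then 1 else 0)
    {b : ℕ} {t : Fin b → L} (ht : AlgebraicIndependent k (Sum.elim (fun l => (y l : L)) t))
    (htS : ∀ j, ∃ τ ∈ V, ∃ i : Fin f, t j = τ (P (Fin.natAdd m i)))
    {h : ℕ} (hk : KodTr k M m h) : KodTr k (fixedField G) (m + f) (h + b) := by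
  classical
  obtain ⟨m0, hm0, ω, hω, D1, h0, hind⟩ := hk
  obtain ⟨E, hE⟩ := exists_duals hy
  have hpl : ∀ l, ω l D1 = (Matrix.of fun i j => D1 i (y j)).det ^ m0 * ω l E := fun l =>
    pluri_zero (K := (⊥ : IntermediateField k M)) (hω l).1 hy hE D1
  have hdet : (Matrix.of fun i j => D1 i (y j)).det ^ m0 ≠ 0 := by
    intro h1
    apply h0 0
    rw [hpl, h1, zero_mul]
  have hE0 : ∀ l, ω l E ≠ 0 := by
    intro l h1
    apply h0 l
    rw [hpl, h1, mul_zero]
  obtain ⟨s, hs⟩ : ∃ s : Fin h → M, s = fun l => ω l.succ E / ω 0 E := ⟨_, rfl⟩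
  have hsi : AlgebraicIndependent k s := by
    have h1 : (fun l : Fin h => ω l.succ D1 / ω 0 D1) = s := by
      rw [hs]
      funext l
      rw [hpl, hpl, mul_div_mul_left _ _ hdet]
    rwa [h1] at hind
  -- goodness of the coefficients
  have hgood : ∀ l, ∀ w : Place k L, IsDivisorial w (m + f) →
      BGood M m m0 w (fun l => (y l : L)) ((ω l E : M) : L) := by
    intro l w hw
    refine base_loc M m (m + f) m0 hMd htr hfinM (hω l).1 ?_ hy hE hw
    intro u hu D hD
    rcases (hω l).2.1 u hu (fun h => h) D hD with h3 | ⟨s, -, hs0, h3⟩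
    · exact Or.inl h3
    · right
      simpa using h3
  choose τ hτ i hi using htS
  obtain ⟨a, ha⟩ : ∃ a : Fin (h + b + 1) → Fin (h + 1), a =
    Fin.cons 0 (Fin.append (fun l : Fin h => l.succ) (fun _ : Fin b => 0)) := ⟨_, rfl⟩
  obtain ⟨Ψ, hΨ⟩ : ∃ Ψ : Fin (h + b + 1) → (Fin f → Derivation k L L →ₗ[L] L), Ψ =
    Fin.cons θ (Fin.append (fun _ : Fin h => θ)
      (fun j : Fin b => Function.update θ (i j) (τ j))) := ⟨_, rfl⟩
  have hΨV : ∀ l j, Ψ l j ∈ V := by
    intro l
    rw [hΨ]
    refine Fin.cases (fun j => hθ j) (fun l j => ?_) l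
    rw [Fin.cons_succ]
    refine Fin.addCases (fun l => ?_) (fun l => ?_) l
    · rw [Fin.append_left]
      exact hθ j
    · rw [Fin.append_right]
      by_cases hj : j = i l
      · subst hj
        rw [Function.update_self]
        exact hτ l
      · rw [Function.update_of_ne hj]
        exact hθ j
  have hη : eta (fam (fun l => (y l : L)) θ) P = 1 := by
    unfold eta
    have h1 : (Matrix.of fun i j => fam (fun l => (y l : L)) θ i (P j)) = 1 := by
      ext i j
      rw [Matrix.of_apply, hP1, Matrix.one_apply]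
    rw [h1, Matrix.det_one]
  obtain ⟨Ω, hΩ⟩ : ∃ Ω : Fin (h + b + 1) → (Fin (m + f) → Derivation k L L) → L, Ω =
    fun l D => ((ω (a l) E : M) : L) * eta (fam (fun l => (y l : L)) (Ψ l)) D ^ m0 := ⟨_, rfl⟩
  have hΩ0 : Ω 0 P = ((ω 0 E : M) : L) := by
    rw [hΩ, ha, hΨ]
    simp only [Fin.cons_zero]
    rw [hη, one_pow, mul_one]
  have hΩl : ∀ l : Fin h, Ω (Fin.castAdd b l).succ P = ((ω l.succ E : M) : L) := by
    intro l
    rw [hΩ, ha, hΨ]
    simp only [Fin.cons_succ, Fin.append_left]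
    rw [hη, one_pow, mul_one]
  have hΩr : ∀ l : Fin b, Ω (Fin.natAdd h l).succ P = ((ω 0 E : M) : L) * t l ^ m0 := by
    intro l
    rw [hΩ, ha, hΨ]
    simp only [Fin.cons_succ, Fin.append_right]
    rw [fam_update, eta_update hP1, hi]
  have hc0 : ∀ l, ((ω l E : M) : L) ≠ 0 := fun l h1 => hE0 l (Subtype.ext h1)
  have htM : AlgebraicIndependent M t := indep_over M hy ht
  refine kod_descent G htr hm0 Ω ?_ ?_ P ?_ ?_
  · intro l
    have h1 := pluri_smul (pluri_pow (eta_pluri (fam (fun l => (y l : L)) (Ψ l))) m0)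
      ((ω (a l) E : M) : L)
    rw [one_mul] at h1
    rw [hΩ]
    exact h1
  · intro v hv
    obtain ⟨w, e, hwv, hg⟩ := exists_rot G v hv
    refine ⟨w, e, hwv, fun D D' hD hDD l g => ?_⟩
    obtain ⟨h1, h2, h', ζ, hord, hζ, hrot⟩ := hg g
    rw [← ge_comp, hΩ]
    exact est_rel G htr hreg hstab hRT h1 h2 hord hζ hrot (hgood (a l) _ h2) (hΨV l) hD hDD
  · intro l
    refine Fin.cases ?_ (fun l => ?_) l
    · rw [hΩ0]
      exact hc0 0
    · refine Fin.addCases (fun l => ?_) (fun l => ?_) l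
      · rw [hΩl]
        exact hc0 _
      · rw [hΩr]
        exact mul_ne_zero (hc0 0) (pow_ne_zero _ (htM.ne_zero l))
  · have e1 : (fun l : Fin (h + b) => Ω l.succ P / Ω 0 P) =
        Fin.append (fun l => (s l : L)) (fun j => t j ^ m0) := by
      funext l
      refine Fin.addCases (fun l => ?_) (fun l => ?_) l
      · rw [hΩl, hΩ0, Fin.append_left, hs]
        rfl
      · rw [hΩr, hΩ0, Fin.append_right, mul_div_cancel_left₀ _ (hc0 0)]
    rw [e1]
    exact indep_append (indep_join M hsi (indep_pow htM hm0))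

end Pool.Agent.Y173.QM
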