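import Pool.Agent.Y173.QA.Str2
import Pool.Agent.Y173.QM.Defs

/-! Transcendence bases adapted to a subfield and a set of functions; linear algebra of forms. -/

set_option autoImplicit false
set_option linter.overlappingInstances false
set_option linter.unusedSectionVars false

universe u v

open FF IntermediateField Pool.Agent.W619.PQ Pool.Agent.W619.PL Pool.Agent.W619.TW
  Pool.Agent.W603.LV Pool.Agent.W619.Y Pool.Agent.Y173.QA

namespace Pool.Agent.Y173.QM

section

variable {k : Type} {K : Type} [Field k] [CharZero k] [Field K] [Algebra k K]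

/-- A transcendence basis which begins with `z` and a maximal independent part of `S1`. -/
theorem pick_rel {w m : ℕ} (htr : Algebra.trdeg k K = w) {z : Fin m → K}
    (hz : AlgebraicIndependent k z) (S1 : Set K) :
    ∃ (b p : ℕ) (t : Fin b → K) (u : Fin p → K), m + b + p = w ∧ (∀ i, t i ∈ S1) ∧
      IsTranscendenceBasis k (Sum.elim (Sum.elim z t) u) ∧
      ∀ D : Derivation k K K, (∀ i, D (z i) = 0) → (∀ i, D (t i) = 0) → ∀ s ∈ S1, D s = 0 := by
  classical
  have hzi : Function.Injective z := hz.injective
  have hB0 : AlgebraicIndepOn k id (Set.range z) := by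
    have h1 := hz.comp (Equiv.ofInjective z hzi).symm (Equiv.injective _)
    have h2 : z ∘ (Equiv.ofInjective z hzi).symm = (fun x : Set.range z => id (x : K)) := by
      funext x
      obtain ⟨i, rfl⟩ := (Equiv.ofInjective z hzi).surjective x
      simp
    rw [h2] at h1
    exact h1
  obtain ⟨B1, hB01, ⟨hB1, hB1S⟩, hmax⟩ := exists_maximal_algebraicIndependent (R := k) (A := K)
    (Set.range z) (Set.range z ∪ S1) Set.subset_union_left hB0
  have halg : Algebra.IsAlgebraic (Algebra.adjoin k (B1 ∪ Set.univ)) K := by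
    refine ⟨fun x => ?_⟩
    exact isAlgebraic_algebraMap (⟨x, Algebra.subset_adjoin (Or.inr (Set.mem_univ x))⟩ :
      Algebra.adjoin k (B1 ∪ Set.univ))
  obtain ⟨B, hBB, -, hB⟩ := exists_isTranscendenceBasis_between (R := k) (A := K) B1 (B1 ∪ Set.univ)
    Set.subset_union_left hB1
  have hcard : Cardinal.mk B = (w : Cardinal) := by
    rw [← htr]
    exact hB.cardinalMk_eq_trdeg
  have hfinB : B.Finite := by
    rw [← Set.finite_coe_iff, ← Cardinal.lt_aleph0_iff_finite, hcard]
    exact Cardinal.natCast_lt_aleph0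
  have hfin1 : Finite (B1 \ Set.range z : Set K) :=
    (hfinB.subset (Set.sdiff_subset.trans hBB)).to_subtype
  have hfin2 : Finite (B \ B1 : Set K) := (hfinB.subset Set.sdiff_subset).to_subtype
  obtain ⟨b, ⟨φ⟩⟩ := Finite.exists_equiv_fin (B1 \ Set.range z : Set K)
  obtain ⟨p, ⟨ψ⟩⟩ := Finite.exists_equiv_fin (B \ B1 : Set K)
  let E1 : Fin m ⊕ Fin b ≃ B1 :=
    (Equiv.sumCongr (Equiv.ofInjective z hzi) φ.symm).trans (Equiv.Set.sumDiffSubset hB01)
  let E : (Fin m ⊕ Fin b) ⊕ Fin p ≃ B :=
    (Equiv.sumCongr E1 ψ.symm).trans (Equiv.Set.sumDiffSubset hBB)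
  have hE : Sum.elim (Sum.elim z (fun i => (φ.symm i : K))) (fun i => (ψ.symm i : K)) =
      (Subtype.val : B → K) ∘ E := by
    funext i
    rcases i with (i | i) | i
    · simp [E, E1]
    · simp [E, E1]
    · simp [E]
  refine ⟨b, p, fun i => (φ.symm i : K), fun i => (ψ.symm i : K), ?_, fun i => ?_, ?_, ?_⟩
  · have h1 := Cardinal.mk_congr E
    rw [hcard, Cardinal.mk_sum, Cardinal.mk_sum] at h1
    simp only [Cardinal.mk_fin, Cardinal.lift_natCast, Cardinal.lift_add] at h1
    exact_mod_cast h1
  · have h1 := (φ.symm i).2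
    exact (hB1S h1.1).resolve_left h1.2
  · rw [hE]
    exact hB.comp_equiv E
  · intro D hDz hDt s hs
    have hB1D : ∀ x ∈ B1, D x = 0 := by
      intro x hx
      by_cases hxz : x ∈ Set.range z
      · obtain ⟨i, rfl⟩ := hxz
        exact hDz i
      · have h1 : D ((φ.symm (φ ⟨x, hx, hxz⟩) : (B1 \ Set.range z : Set K)) : K) = 0 :=
          hDt (φ ⟨x, hx, hxz⟩)
        rwa [Equiv.symm_apply_apply] at h1
    by_cases hsB : s ∈ B1
    · exact hB1D s hsB
    · have h1 : ¬ AlgebraicIndepOn k id (insert s B1) := by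
        intro h2
        have h3 := hmax ⟨h2, Set.insert_subset (Or.inr hs) hB1S⟩ (Set.subset_insert s B1)
        exact hsB (h3 (Set.mem_insert s B1))
      have h2 : IsAlgebraic (Algebra.adjoin k (id '' B1)) s := by
        by_contra h3
        exact h1 (AlgebraicIndepOn.insert (i := s) hB1 h3)
      rw [Set.image_id] at h2
      exact der_of_alg_adjoin D hB1D h2

end

section

variable {k : Type v} {L : Type u} [Field k] [CharZero k] [Field L] [Algebra k L]

/-- the differential of a function, as a linear function on vector fields -/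
def dform (x : L) : Derivation k L L →ₗ[L] L where
  toFun D := D x
  map_add' _ _ := rfl
  map_smul' _ _ := rfl

theorem dform_apply (x : L) (D : Derivation k L L) : dform x D = D x := rfl

theorem dform_closed (x : L) : IsClosedForm (dform (k := k) x) := by
  intro D D'
  rw [dform_apply, dform_apply, dform_apply, Derivation.commutator_apply]

/-- the family `dz 1, ..., dz m, θ 1, ..., θ f` -/
def fam {m f : ℕ} (z : Fin m → L) (θ : Fin f → Derivation k L L →ₗ[L] L) :
    Fin (m + f) → Derivation k L L →ₗ[L] L :=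
  Fin.append (fun l => dform (z l)) θ

theorem fam_left {m f : ℕ} (z : Fin m → L) (θ : Fin f → Derivation k L L →ₗ[L] L) (l : Fin m) :
    fam z θ (Fin.castAdd f l) = dform (z l) := Fin.append_left _ _ l

theorem fam_right {m f : ℕ} (z : Fin m → L) (θ : Fin f → Derivation k L L →ₗ[L] L) (l : Fin f) :
    fam z θ (Fin.natAdd m l) = θ l := Fin.append_right _ _ l

theorem eta_fam {m f : ℕ} (z : Fin m → L) (θ : Fin f → Derivation k L L →ₗ[L] L)
    (D : Fin (m + f) → Derivation k L L) :
    eta (fam z θ) D = (Matrix.of fun i j =>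
      Fin.append (fun l => D j (z l)) (fun l => θ l (D j)) i).det := by
  unfold eta
  congr 1
  ext i j
  rw [Matrix.of_apply, Matrix.of_apply]
  refine Fin.addCases (fun l => ?_) (fun l => ?_) i
  · rw [fam_left, Fin.append_left]
    rfl
  · rw [fam_right, Fin.append_right]

theorem indep_iff (M : IntermediateField k L) {m f : ℕ} (θ : Fin f → Derivation k L L →ₗ[L] L) :
    IndepOver (m := m) M θ ↔ ∃ (z : Fin m → L) (D : Fin (m + f) → Derivation k L L),
      (∀ l, z l ∈ M) ∧ eta (fam z θ) D ≠ 0 := by
  unfold IndepOver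
  simp only [eta_fam]

/-- linear change of the forms -/
theorem eta_lin {n : ℕ} (B : Matrix (Fin n) (Fin n) L) (φ : Fin n → Derivation k L L →ₗ[L] L)
    (D : Fin n → Derivation k L L) : eta (fun i => ∑ j, B i j • φ j) D = B.det * eta φ D := by
  unfold eta
  rw [← Matrix.det_mul]
  congr 1
  ext i j
  rw [Matrix.of_apply, Matrix.mul_apply, LinearMap.sum_apply]
  rfl

/-- linear change of the base functions -/
theorem eta_base {m f : ℕ} {z z' : Fin m → L} (Z : Matrix (Fin m) (Fin m) L)
    (hZ : ∀ (D : Derivation k L L) l, D (z l) = ∑ c, Z l c * D (z' c))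
    (θ : Fin f → Derivation k L L →ₗ[L] L) (D : Fin (m + f) → Derivation k L L) :
    eta (fam z θ) D = Z.det * eta (fam z' θ) D := by
  classical
  let B : Matrix (Fin (m + f)) (Fin (m + f)) L :=
    Matrix.reindex finSumFinEquiv finSumFinEquiv (Matrix.fromBlocks Z 0 0 1)
  have hB : B.det = Z.det := by
    rw [Matrix.det_reindex_self, Matrix.det_fromBlocks_zero₂₁, Matrix.det_one, mul_one]
  have h1 : (fun i => ∑ j, B i j • fam z' θ j) = fam z θ := by
    funext i
    refine Fin.addCases (fun l => ?_) (fun l => ?_) i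
    · rw [fam_left, Fin.sum_univ_add]
      have h2 : ∀ c, B (Fin.castAdd f l) (Fin.castAdd f c) = Z l c := fun c => by
        simp [B, Matrix.reindex_apply, Matrix.submatrix_apply]
      have h3 : ∀ c, B (Fin.castAdd f l) (Fin.natAdd m c) = 0 := fun c => by
        simp [B, Matrix.reindex_apply, Matrix.submatrix_apply]
      simp only [h2, h3, fam_left, zero_smul, Finset.sum_const_zero, add_zero]
      ext X
      rw [LinearMap.sum_apply, dform_apply, hZ]
      rfl
    · rw [fam_right, Fin.sum_univ_add]
      have h2 : ∀ c, B (Fin.natAdd m l) (Fin.castAdd f c) = 0 := fun c => by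
        simp [B, Matrix.reindex_apply, Matrix.submatrix_apply]
      have h3 : ∀ c, B (Fin.natAdd m l) (Fin.natAdd m c) = if l = c then 1 else 0 := fun c => by
        simp [B, Matrix.reindex_apply, Matrix.submatrix_apply, Matrix.one_apply]
      simp only [h2, h3, fam_right, zero_smul, Finset.sum_const_zero, zero_add]
      rw [Finset.sum_eq_single l]
      · rw [if_pos rfl, one_smul]
      · intro c _ hc
        rw [if_neg (Ne.symm hc), zero_smul]
      · intro h
        exact absurd (Finset.mem_univ _) h
  rw [← h1, eta_lin, hB]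

end

end Pool.Agent.Y173.QM
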