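import Pool.Agent.Y173.QM.Pick

/-! The relative structure theorem for spaces of closed regular 1-forms. -/

set_option autoImplicit false
set_option linter.overlappingInstances false
set_option linter.unusedSectionVars false

open FF IntermediateField Pool.Agent.W619.PQ Pool.Agent.W619.PL Pool.Agent.W619.TW
  Pool.Agent.W603.LV Pool.Agent.W619.Y Pool.Agent.TH122.AB Pool.Agent.Y173.QA

namespace Pool.Agent.Y173.QM

variable {k : Type} [Field k] [CharZero k] {L : Type} [Field L] [Algebra k L]

theorem fam_closed {m f : ℕ} (z : Fin m → L) {θ : Fin f → Derivation k L L →ₗ[L] L}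
    (hθ : ∀ i, IsClosedForm (θ i)) (i : Fin (m + f)) : IsClosedForm (fam z θ i) := by
  refine Fin.addCases (fun l => ?_) (fun l => ?_) i
  · rw [fam_left]
    exact dform_closed _
  · rw [fam_right]
    exact hθ l

theorem natAdd_ne_castAdd {m f : ℕ} (i : Fin f) (l : Fin m) :
    (Fin.natAdd m i : Fin (m + f)) ≠ Fin.castAdd f l := by
  intro h
  have h1 := congrArg Fin.val h
  simp only [Fin.val_natAdd, Fin.val_castAdd] at h1
  omega

/-- **The relative structure theorem.** -/
theorem structure_rel [IsAlgClosed k] {m f : ℕ} (hn : Algebra.trdeg k L = (m + f : ℕ))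
    (hfin : ∀ y : Fin (m + f) → L, IsTranscendenceBasis k y →
      FiniteDimensional (IntermediateField.adjoin k (Set.range y)) L)
    (M : IntermediateField k L)
    (V : Submodule k (Derivation k L L →ₗ[L] L)) (hreg : ∀ θ ∈ V, IsRegForm (m + f) θ)
    (hcl : ∀ θ ∈ V, IsClosedForm θ) {z : Fin m → L} (hzM : ∀ l, z l ∈ M)
    (hzi : AlgebraicIndependent k z)
    (hMz : ∀ x ∈ M, ∀ D : Derivation k L L, (∀ l, D (z l) = 0) → D x = 0)
    {θ : Fin f → Derivation k L L →ₗ[L] L} (hθ : ∀ i, θ i ∈ V)
    {D0 : Fin (m + f) → Derivation k L L} (hD0 : eta (fam z θ) D0 ≠ 0) :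
    ∃ (b r : ℕ) (t : Fin b → L) (P : Fin (m + f) → Derivation k L L)
      (U : Fin r → Derivation k L L),
      b + r = f ∧ AlgebraicIndependent k (Sum.elim z t) ∧
      (∀ i j, fam z θ i (P j) = if i = j then 1 else 0) ∧
      (∀ D, D = ∑ i, fam z θ i D • P i) ∧
      (∀ j, ∃ τ ∈ V, ∃ i : Fin f, t j = τ (P (Fin.natAdd m i))) ∧
      (∀ i, U i ∈ constFieldsOver M V) ∧ (∀ i l, U i (z l) = 0) ∧ (∀ i j, U i (t j) = 0) ∧
      (∀ D : Derivation k L L, (∀ l, D (z l) = 0) → (∀ j, D (t j) = 0) →
        ∃ c : Fin r → L, D = ∑ i, c i • U i) ∧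
      LinearIndependent L U ∧ Module.finrank k (constFieldsOver M V) = r := by
  classical
  obtain ⟨P, hP1, hP2⟩ := dual_frame hn hD0
  let S1 : Set L := {x | ∃ τ ∈ V, ∃ i : Fin f, x = τ (P (Fin.natAdd m i))}
  obtain ⟨b, r, t, u, har, htS, hbas, hkill0⟩ := pick_rel hn hzi S1
  have har' : b + r = f := by omega
  -- values of the frame
  have hΦz : ∀ (l : Fin m) (D : Derivation k L L), fam z θ (Fin.castAdd f l) D = D (z l) := by
    intro l D
    rw [fam_left, dform_apply]
  have hΦθ : ∀ (l : Fin f) (D : Derivation k L L), fam z θ (Fin.natAdd m l) D = θ l D := by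
    intro l D
    rw [fam_right]
  have hPz : ∀ (i : Fin f) (l : Fin m), P (Fin.natAdd m i) (z l) = 0 := by
    intro i l
    rw [← hΦz, hP1, if_neg (Ne.symm (natAdd_ne_castAdd i l))]
  have hθP : ∀ l l' : Fin f, θ l (P (Fin.natAdd m l')) = if l = l' then 1 else 0 := by
    intro l l'
    rw [← hΦθ, hP1]
    by_cases h : l = l'
    · rw [if_pos h, if_pos (by rw [h])]
    · rw [if_neg h, if_neg (fun h' => h (Fin.natAdd_injective f m h'))]
  let t1 : Fin m ⊕ Fin b → L := Sum.elim z t
  obtain ⟨E, hE⟩ := exists_duals hbas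
  have hEtt : ∀ j l, E (Sum.inl j) (t1 l) = if j = l then 1 else 0 := by
    intro j l
    have h1 := hE (Sum.inl j) (Sum.inl l)
    rw [Sum.elim_inl] at h1
    change E (Sum.inl j) (Sum.elim z t l) = _
    rw [h1]
    by_cases hjl : j = l
    · rw [if_pos hjl, if_pos (by rw [hjl])]
    · rw [if_neg hjl, if_neg (fun h => hjl (Sum.inl_injective h))]
  have hEut : ∀ j l, E (Sum.inr j) (t1 l) = 0 := by
    intro j l
    have h1 := hE (Sum.inr j) (Sum.inl l)
    rw [Sum.elim_inl, if_neg Sum.inr_ne_inl] at h1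
    exact h1
  -- the distribution
  let N : Submodule L (Derivation k L L) :=
    { carrier := {D | ∀ j, D (t1 j) = 0}
      zero_mem' := fun j => by simp
      add_mem' := by
        intro D D' h h' j
        rw [Derivation.add_apply, h j, h' j, add_zero]
      smul_mem' := by
        intro c D h j
        rw [Derivation.smul_apply, h j, smul_zero] }
  have hNmem : ∀ D, D ∈ N ↔ ∀ j, D (t1 j) = 0 := fun D => Iff.rfl
  have hNz : ∀ D ∈ N, ∀ l, D (z l) = 0 := fun D hD l => hD (Sum.inl l)
  have hNt : ∀ D ∈ N, ∀ l, D (t l) = 0 := fun D hD l => hD (Sum.inr l)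
  have hkill : ∀ D ∈ N, ∀ s ∈ S1, D s = 0 := fun D hD => hkill0 D (hNz D hD) (hNt D hD)
  have hexp : ∀ D ∈ N, D = ∑ i, D (u i) • E (Sum.inr i) := by
    intro D hD
    have h1 := der_expand hbas hE D
    rw [Fintype.sum_sum_type] at h1
    have h2 : ∑ j, D ((Sum.elim (Sum.elim z t) u : (Fin m ⊕ Fin b) ⊕ Fin r → L) (Sum.inl j)) •
        E (Sum.inl j) = 0 := by
      refine Finset.sum_eq_zero fun j _ => ?_
      rw [Sum.elim_inl]
      have h3 : D (Sum.elim z t j) = 0 := hD j
      rw [h3, zero_smul]
    rw [h2, zero_add] at h1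
    exact h1
  have hbr : ∀ D ∈ N, ∀ D' : Derivation k L L, (∀ j, ∃ c : k, D' (t1 j) = algebraMap k L c) →
      ⁅D, D'⁆ ∈ N := by
    intro D hD D' hD' j
    obtain ⟨c, hc⟩ := hD' j
    rw [Derivation.commutator_apply, hc, D.map_algebraMap, hD j, map_zero, sub_zero]
  have hEc : ∀ l j, ∃ c : k, E (Sum.inl l) (t1 j) = algebraMap k L c := by
    intro l j
    rw [hEtt]
    by_cases hjl : l = j
    · exact ⟨1, by rw [if_pos hjl, map_one]⟩
    · exact ⟨0, by rw [if_neg hjl, map_zero]⟩
  -- the rank
  let bN : Fin r → N := fun i => ⟨E (Sum.inr i), fun j => hEut i j⟩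
  have hbN : Submodule.span L (Set.range bN) = ⊤ := by
    rw [eq_top_iff]
    rintro ⟨D, hD⟩ -
    have h1 : (⟨D, hD⟩ : N) = ∑ i, D (u i) • bN i := by
      apply Subtype.ext
      rw [Submodule.coe_sum]
      exact hexp D hD
    rw [h1]
    exact Submodule.sum_mem _ fun i _ => Submodule.smul_mem _ _ (Submodule.subset_span ⟨i, rfl⟩)
  have hblin : LinearIndependent L bN := by
    rw [Fintype.linearIndependent_iff]
    intro c hc i
    have h1 := congrArg (fun D : N => (D : Derivation k L L) (u i)) hc
    simp only [Submodule.coe_sum, Submodule.coe_smul, ZeroMemClass.coe_zero,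
      Derivation.coe_zero, Pi.zero_apply] at h1
    rw [Pool.Agent.W721.PG.EFF2.der_sum, Finset.sum_eq_single i] at h1
    · have h2 := hE (Sum.inr i) (Sum.inr i)
      rw [Sum.elim_inr, if_pos rfl] at h2
      change c i * E (Sum.inr i) (u i) = 0 at h1
      rwa [h2, mul_one] at h1
    · intro l _ hl
      have h2 := hE (Sum.inr l) (Sum.inr i)
      rw [Sum.elim_inr, if_neg (fun h => hl (Sum.inr_injective h))] at h2
      change c l * E (Sum.inr l) (u i) = 0
      rw [h2, mul_zero]
    · intro h
      exact absurd (Finset.mem_univ _) h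
  let bb : Module.Basis (Fin r) L N := Module.Basis.mk hblin (by rw [hbN])
  have hfdN : FiniteDimensional L N := Module.Finite.of_basis bb
  have hrN : Module.finrank L N = r := by
    rw [Module.finrank_eq_card_basis bb, Fintype.card_fin]
  -- expansion of vertical fields
  have hvexp : ∀ D : Derivation k L L, (∀ l, D (z l) = 0) →
      D = ∑ i : Fin f, θ i D • P (Fin.natAdd m i) := by
    intro D hD
    have h1 := hP2 D
    rw [Fin.sum_univ_add] at h1
    have h2 : ∑ i : Fin m, fam z θ (Fin.castAdd f i) D • P (Fin.castAdd f i) = 0 := by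
      refine Finset.sum_eq_zero fun i _ => ?_
      rw [hΦz, hD, zero_smul]
    rw [h2, zero_add] at h1
    simp only [hΦθ] at h1
    exact h1
  have hvform : ∀ (τ : Derivation k L L →ₗ[L] L) (D : Derivation k L L), (∀ l, D (z l) = 0) →
      τ D = ∑ i : Fin f, θ i D * τ (P (Fin.natAdd m i)) := by
    intro τ D hD
    conv_lhs => rw [hvexp D hD]
    rw [map_sum]
    exact Finset.sum_congr rfl fun i _ => by rw [map_smul, smul_eq_mul]
  -- the dual family
  obtain ⟨J, U', hU1, hU2⟩ := exists_dual_family hrN (fun l : Fin f => (θ l).comp N.subtype)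
    (fun x hx => by
      apply Subtype.ext
      have h1 := hvexp (x : Derivation k L L) (hNz _ x.2)
      have h2 : ∀ i, θ i (x : Derivation k L L) = 0 := fun i => hx i
      rw [h1]
      refine Finset.sum_eq_zero fun i _ => ?_
      rw [h2 i, zero_smul])
  let U : Fin r → Derivation k L L := fun i => (U' i : Derivation k L L)
  have hUN : ∀ i, U i ∈ N := fun i => (U' i).2
  have hUθ : ∀ i j, θ (J j) (U i) = if i = j then 1 else 0 := fun i j => hU1 i j
  have hUexp : ∀ D ∈ N, D = ∑ j, θ (J j) D • U j := by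
    intro D hD
    have h1 := congrArg (fun x : N => (x : Derivation k L L)) (hU2 ⟨D, hD⟩)
    simp only [Submodule.coe_sum, Submodule.coe_smul] at h1
    exact h1
  -- constants of the distribution
  have hcst : ∀ τ ∈ V, ∀ i : Fin f, ∀ D ∈ N, D (τ (P (Fin.natAdd m i))) = 0 :=
    fun τ hτ i D hD => hkill D hD _ ⟨τ, hτ, i, rfl⟩
  have hcstE : ∀ z : L, (∀ D ∈ N, D z = 0) → ∀ l, ∀ D ∈ N, D (E (Sum.inl l) z) = 0 := by
    intro z hz l D hD
    have h1 := hz _ (hbr D hD (E (Sum.inl l)) (hEc l))
    rw [Derivation.commutator_apply, hz D hD, map_zero, sub_zero] at h1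
    exact h1
  have hcstexp : ∀ z : L, (∀ D ∈ N, D z = 0) → ∀ D : Derivation k L L,
      D z = ∑ j, D (t1 j) * E (Sum.inl j) z := by
    intro z' hz D
    conv_lhs => rw [der_expand hbas hE D]
    rw [Pool.Agent.W721.PG.EFF2.der_sum, Fintype.sum_sum_type]
    have h2 : ∑ i, D ((Sum.elim (Sum.elim z t) u : (Fin m ⊕ Fin b) ⊕ Fin r → L) (Sum.inr i)) *
        E (Sum.inr i) z' = 0 := by
      refine Finset.sum_eq_zero fun i _ => ?_
      rw [hz _ (bN i).2, mul_zero]
    rw [h2, add_zero]
    rfl
  have hstar := fun (τ : Derivation k L L →ₗ[L] L) (hτ : τ ∈ V) (D D' : Derivation k L L) =>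
    star (fun i => fam_closed z (fun i => hcl _ (hθ i)) i) hP2 (hcl τ hτ) D D'
  -- the values `θ l (U i)` are constants of the distribution
  have hval : ∀ l i, ∀ D ∈ N, D (θ l (U i)) = 0 := by
    intro l i
    have key : ∀ s, U s (θ l (U i)) = 0 := by
      intro s
      obtain ⟨D2, hD2⟩ : ∃ D2 : Derivation k L L,
        D2 = ∑ l, U s (θ l (U i)) • P (Fin.natAdd m l) := ⟨_, rfl⟩
      have hθ2 : ∀ l, θ l D2 = U s (θ l (U i)) := by
        intro l
        rw [hD2, map_sum, Finset.sum_eq_single l]
        · rw [map_smul, hθP, if_pos rfl, smul_eq_mul, mul_one]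
        · intro b _ hb
          rw [map_smul, hθP, if_neg (Ne.symm hb), smul_zero]
        · intro h
          exact absurd (Finset.mem_univ _) h
      have hz2 : ∀ l, D2 (z l) = 0 := by
        intro l
        rw [hD2, Pool.Agent.W721.PG.EFF2.der_sum]
        refine Finset.sum_eq_zero fun l' _ => ?_
        rw [hPz, mul_zero]
      have hD2t : ∀ j, D2 (t j) = 0 := by
        intro j
        obtain ⟨τ, hτ, i', hti⟩ := htS j
        rw [hti]
        have h1 := hstar τ hτ D2 (P (Fin.natAdd m i'))
        have h2 : ∑ i, D2 (τ (P i)) * fam z θ i (P (Fin.natAdd m i')) =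
            D2 (τ (P (Fin.natAdd m i'))) := by
          rw [Finset.sum_eq_single (Fin.natAdd m i')]
          · rw [hP1, if_pos rfl, mul_one]
          · intro b _ hb
            rw [hP1, if_neg hb, mul_zero]
          · intro h
            exact absurd (Finset.mem_univ _) h
        rw [h2, Fin.sum_univ_add] at h1
        have h2' : ∑ i : Fin m, P (Fin.natAdd m i') (τ (P (Fin.castAdd f i))) *
            fam z θ (Fin.castAdd f i) D2 = 0 := by
          refine Finset.sum_eq_zero fun i _ => ?_
          rw [hΦz, hz2, mul_zero]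
        rw [h2', zero_add] at h1
        rw [h1]
        simp only [hΦθ, hθ2]
        have h3 : ∀ l : Fin f, P (Fin.natAdd m i') (τ (P (Fin.natAdd m l))) =
            ∑ j, P (Fin.natAdd m i') (t1 j) * E (Sum.inl j) (τ (P (Fin.natAdd m l))) :=
          fun l => hcstexp _ (hcst τ hτ l) _
        simp only [h3, Finset.sum_mul]
        rw [Finset.sum_comm]
        refine Finset.sum_eq_zero fun j _ => ?_
        rcases j with j | j
        · refine Finset.sum_eq_zero fun l _ => ?_
          have h4 : P (Fin.natAdd m i') (t1 (Sum.inl j)) = 0 := hPz i' j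
          rw [h4, zero_mul, zero_mul]
        have h4 := hstar τ hτ (U i) (E (Sum.inl (Sum.inr j)))
        have h5 : ∑ l, U i (τ (P l)) * fam z θ l (E (Sum.inl (Sum.inr j))) = 0 := by
          rw [Fin.sum_univ_add]
          have h51 : ∑ l : Fin m, U i (τ (P (Fin.castAdd f l))) *
              fam z θ (Fin.castAdd f l) (E (Sum.inl (Sum.inr j))) = 0 := by
            refine Finset.sum_eq_zero fun l _ => ?_
            have h52 := hEtt (Sum.inr j) (Sum.inl l)
            rw [if_neg Sum.inr_ne_inl] at h52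
            have h53 : E (Sum.inl (Sum.inr j)) (z l) = 0 := h52
            rw [hΦz, h53, mul_zero]
          rw [h51, zero_add]
          refine Finset.sum_eq_zero fun l _ => ?_
          rw [hcst τ hτ l _ (hUN i), zero_mul]
        rw [h5, Fin.sum_univ_add] at h4
        have h5' : ∑ l : Fin m, E (Sum.inl (Sum.inr j)) (τ (P (Fin.castAdd f l))) *
            fam z θ (Fin.castAdd f l) (U i) = 0 := by
          refine Finset.sum_eq_zero fun l _ => ?_
          rw [hΦz, hNz _ (hUN i), mul_zero]
        rw [h5', zero_add] at h4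
        simp only [hΦθ] at h4
        have h6 := congrArg (U s) h4
        rw [map_zero, map_sum] at h6
        have h7 : ∀ l : Fin f, U s (E (Sum.inl (Sum.inr j)) (τ (P (Fin.natAdd m l))) *
            θ l (U i)) =
            E (Sum.inl (Sum.inr j)) (τ (P (Fin.natAdd m l))) * U s (θ l (U i)) := by
          intro l
          rw [Derivation.leibniz, hcstE _ (hcst τ hτ l) (Sum.inr j) _ (hUN s), smul_zero,
            add_zero, smul_eq_mul]
        simp only [h7] at h6
        have h8 : ∀ l : Fin f, P (Fin.natAdd m i') (t1 (Sum.inr j)) *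
            E (Sum.inl (Sum.inr j)) (τ (P (Fin.natAdd m l))) * U s (θ l (U i)) =
            P (Fin.natAdd m i') (t1 (Sum.inr j)) *
              (E (Sum.inl (Sum.inr j)) (τ (P (Fin.natAdd m l))) * U s (θ l (U i))) :=
          fun l => mul_assoc _ _ _
        simp only [h8]
        rw [← Finset.mul_sum, ← h6, mul_zero]
      have hD2N : D2 ∈ N := by
        rintro (l | j)
        · exact hz2 l
        · exact hD2t j
      have h1 := hUexp D2 hD2N
      have h2 : D2 = 0 := by
        rw [h1]
        refine Finset.sum_eq_zero fun j _ => ?_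
        rw [hθ2, hUθ]
        have h3 : U s (if i = j then (1 : L) else 0) = 0 := by
          split_ifs
          · exact Derivation.map_one_eq_zero _
          · exact map_zero _
        rw [h3, zero_smul]
      rw [← hθ2, h2, map_zero]
    intro D hD
    rw [hUexp D hD, Pool.Agent.W721.PG.EFF2.der_sum]
    refine Finset.sum_eq_zero fun s _ => ?_
    rw [key, mul_zero]
  have hg : ∀ τ ∈ V, ∀ i, ∀ D ∈ N, D (τ (U i)) = 0 := by
    intro τ hτ i D hD
    rw [hvform τ (U i) (hNz _ (hUN i)), map_sum]
    refine Finset.sum_eq_zero fun l _ => ?_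
    rw [Derivation.leibniz, hval l i D hD, hcst τ hτ l D hD, smul_zero, smul_zero, add_zero]
  -- the pole argument
  have hpole : ∀ (h : L) (c : Fin r → L), (∀ i, ∀ D ∈ N, D (c i) = 0) →
      (∀ D ∈ N, D h = ∑ i, c i * θ (J i) D) → ∀ D ∈ N, D h = 0 := by
    intro h c hc hh
    by_contra hcon
    push Not at hcon
    obtain ⟨D, hD, hDh⟩ := hcon
    obtain ⟨i0, hi0⟩ : ∃ i0, E (Sum.inr i0) h ≠ 0 := by
      by_contra hcon
      push Not at hcon
      apply hDh
      rw [hexp D hD, Pool.Agent.W721.PG.EFF2.der_sum]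
      refine Finset.sum_eq_zero fun i _ => ?_
      rw [hcon i, mul_zero]
    obtain ⟨m1, hm1⟩ : ∃ m1, m + f = m1 + 1 := by
      refine Nat.exists_eq_succ_of_ne_zero ?_
      intro h0
      have : r = 0 := by omega
      subst this
      exact i0.elim0
    have hn1 : Algebra.trdeg k L = (m1 + 1 : ℕ) := by rw [hn, hm1]
    have hfin1 : ∀ y : Fin (m1 + 1) → L, IsTranscendenceBasis k y →
      FiniteDimensional (IntermediateField.adjoin k (Set.range y)) L := hm1 ▸ hfin
    obtain ⟨y, hy, hyZ⟩ := exchange (ι := (Fin m ⊕ Fin b) ⊕ Fin r) (m := m1)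
      (by simp; omega) hbas hn1 hE hi0
    obtain ⟨Q, s, E0, hQ, hs, hhQ, hE0, hE0s, hE0y⟩ := exists_pole hn1 hfin1 hy
    have hE0N : E0 ∈ N := by
      intro j
      obtain ⟨i, hi⟩ := hyZ (Sum.inl j) Sum.inl_ne_inr
      rw [Sum.elim_inl] at hi
      change E0 (Sum.elim z t j) = 0
      rw [← hi]
      exact hE0y i
    apply pole_der hs hE0 hE0s hhQ
    rw [hh E0 hE0N]
    refine Ge.sum _ _ fun i _ => ?_
    have h1 : Q.Reg (c i) := by
      by_contra h1
      unfold Place.Reg at h1
      push Not at h1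
      apply pole_der hs hE0 hE0s h1.2
      rw [hc i E0 hE0N]
      exact Q.reg_zero
    have hQ' : IsDivisorial Q (m + f) := by rw [hm1]; exact hQ
    exact Q.reg_mul h1 (hreg _ (hθ (J i)) Q hQ' E0 hE0)
  -- the values are constants
  have hconst : ∀ τ ∈ V, ∀ i, ∃ c : k, τ (U i) = algebraMap k L c := by
    intro τ hτ i
    have hτexp : ∀ X ∈ N, τ X = ∑ i, τ (U i) * θ (J i) X := by
      intro X hX
      conv_lhs => rw [hUexp X hX]
      rw [map_sum]
      exact Finset.sum_congr rfl fun i _ => by rw [map_smul, smul_eq_mul, mul_comm]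
    have hEl : ∀ l i, E (Sum.inl l) (τ (U i)) = 0 := by
      intro l
      have h1 : ∀ D ∈ N, D (τ (E (Sum.inl l)) - ∑ i, τ (U i) * θ (J i) (E (Sum.inl l))) =
          ∑ i, E (Sum.inl l) (τ (U i)) * θ (J i) D := by
        intro D hD
        have hX := hbr D hD (E (Sum.inl l)) (hEc l)
        have h2 := hτexp _ hX
        rw [hcl τ hτ] at h2
        have h3 : ∀ i, τ (U i) * θ (J i) ⁅D, E (Sum.inl l)⁆ =
            τ (U i) * D (θ (J i) (E (Sum.inl l))) - τ (U i) * E (Sum.inl l) (θ (J i) D) := by
          intro i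
          rw [hcl _ (hθ (J i)), mul_sub]
        simp only [h3] at h2
        rw [hτexp D hD, map_sum] at h2
        have h4 : ∀ i, E (Sum.inl l) (τ (U i) * θ (J i) D) =
            τ (U i) * E (Sum.inl l) (θ (J i) D) + θ (J i) D * E (Sum.inl l) (τ (U i)) := by
          intro i
          rw [Derivation.leibniz, smul_eq_mul, smul_eq_mul]
        simp only [h4] at h2
        rw [Finset.sum_add_distrib, Finset.sum_sub_distrib] at h2
        rw [map_sub, map_sum]
        have h5 : ∀ i, D (τ (U i) * θ (J i) (E (Sum.inl l))) =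
            τ (U i) * D (θ (J i) (E (Sum.inl l))) := by
          intro i
          rw [Derivation.leibniz, hg τ hτ i D hD, smul_zero, add_zero, smul_eq_mul]
        simp only [h5]
        have h6 : ∑ i, E (Sum.inl l) (τ (U i)) * θ (J i) D =
            ∑ i, θ (J i) D * E (Sum.inl l) (τ (U i)) :=
          Finset.sum_congr rfl fun i _ => mul_comm _ _
        rw [h6]
        linear_combination h2
      have h2 := hpole _ (fun i => E (Sum.inl l) (τ (U i)))
        (fun i D hD => hcstE _ (hg τ hτ i) l D hD) h1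
      intro i
      have h3 := h1 (U i) (hUN i)
      rw [h2 _ (hUN i), Finset.sum_eq_single i] at h3
      · rw [hUθ, if_pos rfl, mul_one] at h3
        exact h3.symm
      · intro b _ hb
        rw [hUθ, if_neg (Ne.symm hb), mul_zero]
      · intro h
        exact absurd (Finset.mem_univ _) h
    apply const_of_all
    intro D
    rw [hcstexp _ (hg τ hτ i) D]
    refine Finset.sum_eq_zero fun j _ => ?_
    rw [hEl, mul_zero]
  have hUc : ∀ i, U i ∈ constFieldsOver M V := fun i =>
    ⟨fun x hx => hMz x hx _ (hNz _ (hUN i)), fun τ hτ => hconst τ hτ i⟩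
  have hUlin : LinearIndependent L U := by
    rw [Fintype.linearIndependent_iff]
    intro c hc i
    have h1 := congrArg (θ (J i)) hc
    rw [map_sum, map_zero, Finset.sum_eq_single i] at h1
    · rw [map_smul, hUθ, if_pos rfl, smul_eq_mul, mul_one] at h1
      exact h1
    · intro l _ hl
      rw [map_smul, hUθ, if_neg hl, smul_zero]
    · intro h
      exact absurd (Finset.mem_univ _) h
  -- all fields in `constFieldsOver M V` belong to the distribution
  have htang : ∀ D ∈ constFieldsOver M V, D ∈ N := by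
    intro D hD
    have hDz : ∀ l, D (z l) = 0 := fun l => hD.1 _ (hzM l)
    rintro (l | j)
    · exact hDz l
    change D (t j) = 0
    obtain ⟨τ, hτ, i, hti⟩ := htS j
    rw [hti]
    have h1 := hstar τ hτ D (P (Fin.natAdd m i))
    have h2 : ∑ l, D (τ (P l)) * fam z θ l (P (Fin.natAdd m i)) =
        D (τ (P (Fin.natAdd m i))) := by
      rw [Finset.sum_eq_single (Fin.natAdd m i)]
      · rw [hP1, if_pos rfl, mul_one]
      · intro b _ hb
        rw [hP1, if_neg hb, mul_zero]
      · intro h
        exact absurd (Finset.mem_univ _) h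
    rw [h2, Fin.sum_univ_add] at h1
    have h2' : ∑ l : Fin m, P (Fin.natAdd m i) (τ (P (Fin.castAdd f l))) *
        fam z θ (Fin.castAdd f l) D = 0 := by
      refine Finset.sum_eq_zero fun l _ => ?_
      rw [hΦz, hDz, mul_zero]
    rw [h2', zero_add] at h1
    rw [h1]
    simp only [hΦθ]
    obtain ⟨c, hc⟩ := hD.2 τ hτ
    have h3 := congrArg (P (Fin.natAdd m i)) (hvform τ D hDz)
    rw [hc, Derivation.map_algebraMap, map_sum] at h3
    rw [h3]
    refine Finset.sum_congr rfl fun l _ => ?_
    obtain ⟨c', hc'⟩ := hD.2 (θ l) (hθ l)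
    rw [Derivation.leibniz, hc', Derivation.map_algebraMap, smul_zero, add_zero, smul_eq_mul,
      mul_comm]
  have hUk : LinearIndependent k U := by
    rw [Fintype.linearIndependent_iff] at hUlin ⊢
    intro c hc i
    have h1 := hUlin (fun i => algebraMap k L (c i)) (by
      rw [← hc]
      refine Finset.sum_congr rfl fun i _ => ?_
      ext z
      simp [Algebra.smul_def]) i
    exact (map_eq_zero _).1 h1
  have hspan : Submodule.span k (Set.range U) = constFieldsOver M V := by
    apply le_antisymm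
    · rw [Submodule.span_le]
      rintro _ ⟨i, rfl⟩
      exact hUc i
    · intro D hD
      have h1 := hUexp D (htang D hD)
      rw [h1]
      refine Submodule.sum_mem _ fun i _ => ?_
      obtain ⟨c, hc⟩ := hD.2 _ (hθ (J i))
      have h2 : θ (J i) D • U i = c • U i := by
        rw [hc]
        ext z
        simp [Algebra.smul_def]
      rw [h2]
      exact Submodule.smul_mem _ _ (Submodule.subset_span ⟨i, rfl⟩)
  refine ⟨b, r, t, P, U, har', hbas.1.comp _ Sum.inl_injective, hP1, hP2, htS, hUc,
    fun i l => hNz _ (hUN i) l, fun i j => hNt _ (hUN i) j, fun D hDz hDt => ⟨_, hUexp D ?_⟩,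
    hUlin, ?_⟩
  · rintro (l | j)
    · exact hDz l
    · exact hDt j
  · rw [← hspan, finrank_span_eq_card hUk, Fintype.card_fin]

end Pool.Agent.Y173.QM
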